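import Pool.Agent.W2helper44.CP.Stm

/-! # Project CP: the final statement from the local theorem -/

set_option autoImplicit false

open Set Filter Topology MeasureTheory
open scoped ContDiff

noncomputable section

namespace Pool.Agent.W2helper44.CP

namespace Final

/-! ### transfer along a linear equivalence -/

lemma isDiffeo_transfer {V W : Type} [NormedAddCommGroup V] [NormedSpace ℝ V]
    [NormedAddCommGroup W] [NormedSpace ℝ W] (e : V ≃L[ℝ] W) {M : Set V} {F : V → V}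
    (h : IsDiffeo M F) : IsDiffeo (e '' M) fun x => e (F (e.symm x)) := by
  obtain ⟨hF, hFM, G, hG, hGM, hGF, hFG⟩ := h
  refine ⟨e.contDiff.comp (hF.comp e.symm.contDiff), ?_, fun x => e (G (e.symm x)),
    e.contDiff.comp (hG.comp e.symm.contDiff), ?_, ?_, ?_⟩
  · rintro _ ⟨x, hx, rfl⟩
    exact ⟨F x, hFM hx, by simp⟩
  · rintro _ ⟨x, hx, rfl⟩
    exact ⟨G x, hGM hx, by simp⟩
  · rintro _ ⟨x, hx, rfl⟩
    simp [hGF x hx]
  · rintro _ ⟨x, hx, rfl⟩
    simp [hFG x hx]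

lemma isotopic_transfer {V W : Type} [NormedAddCommGroup V] [NormedSpace ℝ V]
    [NormedAddCommGroup W] [NormedSpace ℝ W] (e : V ≃L[ℝ] W) {M : Set V} {F G : W → W}
    (h : Isotopic (e '' M) F G) :
    Isotopic M (fun x => e.symm (F (e x))) fun x => e.symm (G (e x)) := by
  obtain ⟨K, hK, hd, h0, h1⟩ := h
  have him : e.symm '' (e '' M) = M := by
    rw [← image_comp]
    simp
  refine ⟨fun q => e.symm (K (q.1, e q.2)), ?_, fun t => ?_, fun x hx => ?_, fun x hx => ?_⟩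
  · exact e.symm.contDiff.comp (hK.comp (contDiff_fst.prodMk (e.contDiff.comp contDiff_snd)))
  · have h2 := isDiffeo_transfer e.symm (hd t)
    rw [him] at h2
    simpa using h2
  · simp [h0 _ (mem_image_of_mem e hx)]
  · simp [h1 _ (mem_image_of_mem e hx)]

/-! ### the coordinates of `Mat3` -/

/-- the Frobenius norm, squared -/
def fro (A : Mat3) : ℝ := ∑ i, ∑ j, ‖A i j‖ ^ 2

/-- real coordinates -/
def lin : Mat3 ≃ₗ[ℝ] Eu (Fin 3 × Fin 3 × Fin 2) where
  toFun A := WithLp.toLp 2 fun q => if q.2.2 = 0 then (A q.1 q.2.1).re else (A q.1 q.2.1).im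
  invFun u := fun i j => ⟨u (i, j, 0), u (i, j, 1)⟩
  map_add' A B := by
    ext q
    simp only [Pi.add_apply, Complex.add_re, Complex.add_im, PiLp.add_apply]
    split_ifs <;> rfl
  map_smul' c A := by
    ext q
    simp only [Pi.smul_apply, PiLp.smul_apply, RingHom.id_apply]
    split_ifs <;> simp
  left_inv A := by
    funext i j
    simp
  right_inv u := by
    ext ⟨i, j, k⟩
    fin_cases k <;> simp

/-- real coordinates -/
def ee : Mat3 ≃L[ℝ] Eu (Fin 3 × Fin 3 × Fin 2) := lin.toContinuousLinearEquiv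

lemma norm_ee (A : Mat3) : ‖ee A‖ ^ 2 = fro A := by
  have h : ee A = WithLp.toLp 2 fun q : Fin 3 × Fin 3 × Fin 2 =>
      if q.2.2 = 0 then (A q.1 q.2.1).re else (A q.1 q.2.1).im := rfl
  rw [h, EuclideanSpace.norm_sq_eq, fro]
  simp only [Fintype.sum_prod_type, Fin.sum_univ_two]
  refine Finset.sum_congr rfl fun i _ => Finset.sum_congr rfl fun j _ => ?_
  rw [Complex.sq_norm, Complex.normSq_apply]
  simp [sq]

lemma norm_ee_sub (A B : Mat3) : ‖ee A - ee B‖ ^ 2 = ∑ i, ∑ j, ‖A i j - B i j‖ ^ 2 := by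
  rw [← map_sub, norm_ee]
  rfl

lemma norm_ee_le (A B : Mat3) (r : ℝ) (hr : 0 ≤ r) :
    ‖ee A - ee B‖ ≤ r ↔ ∑ i, ∑ j, ‖A i j - B i j‖ ^ 2 ≤ r ^ 2 := by
  rw [← norm_ee_sub, sq_le_sq₀ (norm_nonneg _) hr]

/-- the image of `CP²` -/
def MM : Set (Eu (Fin 3 × Fin 3 × Fin 2)) := ee '' CP2

lemma retr (hCON : P_CON) (hRET : P_RET) : ∃ ρ, Retr MM ρ := by
  obtain ⟨hc, hp, hn⟩ := hCON
  obtain ⟨ρ, hρ, ⟨η, hη, hρM⟩, hid⟩ := hRET
  refine ⟨fun x => ee (ρ (ee.symm x)), ⟨hc.image ee.continuous, hp.image _ ee.continuous.continuousOn,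
    hn.image _, ee.contDiff.comp (hρ.comp ee.symm.contDiff), ?_, ?_⟩⟩
  · obtain ⟨T, hT⟩ : ∃ T : Eu (Fin 3 × Fin 3 × Fin 2) →L[ℝ] Mat3, ∀ u, T u = ee.symm u :=
      ⟨(ee.symm : Eu (Fin 3 × Fin 3 × Fin 2) ≃L[ℝ] Mat3), fun _ => rfl⟩
    refine ⟨η / (‖T‖ + 1), by positivity, ?_⟩
    rintro _ ⟨P, hP, rfl⟩ y hy
    refine ⟨ρ (ee.symm y), hρM P hP _ ?_, rfl⟩
    have h1 : ee.symm y - P = T (y - ee P) := by rw [hT]; simp
    rw [h1]
    rw [le_div_iff₀ (by positivity)] at hy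
    calc ‖T (y - ee P)‖ ≤ ‖T‖ * ‖y - ee P‖ := ContinuousLinearMap.le_opNorm _ _
      _ ≤ ‖y - ee P‖ * (‖T‖ + 1) := by nlinarith [norm_nonneg (y - ee P)]
      _ ≤ η := hy
  · rintro _ ⟨P, hP, rfl⟩
    simp [hid P hP]

lemma flat_transfer {δ : ℝ} {F : Mat3 → Mat3} (h : FlatC δ F) :
    Flat MM δ fun x => ee (F (ee.symm x)) := by
  rintro _ ⟨P, hP, rfl⟩ r hr
  obtain ⟨l, hl, hf⟩ := h P hP r hr
  refine ⟨l, hl, ?_⟩
  rintro _ ⟨Q, hQ, rfl⟩ _ ⟨S, hS, rfl⟩ h1 h2
  rw [norm_ee_le _ _ _ hr.le] at h1 h2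
  simp only [ContinuousLinearEquiv.symm_apply_apply]
  rw [norm_ee_sub, norm_ee_sub]
  exact hf Q hQ S hS h1 h2

/-! ### unitary matrices -/

lemma mem_CP2 (P : Mat3) : P ∈ CP2 ↔ (Matrix.of P).conjTranspose = Matrix.of P ∧
    Matrix.of P * Matrix.of P = Matrix.of P ∧ (Matrix.of P).trace = 1 := by
  constructor
  · rintro ⟨h1, h2, h3⟩
    refine ⟨?_, ?_, ?_⟩
    · ext i j
      rw [Matrix.conjTranspose_apply]
      exact (h1 j i).symm
    · ext i j
      rw [Matrix.mul_apply]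
      exact h2 i j
    · exact h3
  · rintro ⟨h1, h2, h3⟩
    refine ⟨fun i j => ?_, fun i j => ?_, ?_⟩
    · have := congrFun (congrFun h1 j) i
      rw [Matrix.conjTranspose_apply] at this
      exact this.symm
    · have := congrFun (congrFun h2 i) j
      rw [Matrix.mul_apply] at this
      exact this
    · exact h3

lemma of_conjBy (U : Matrix (Fin 3) (Fin 3) ℂ) (P : Mat3) :
    Matrix.of (conjBy U P) = U * Matrix.of P * U.conjTranspose := rfl

lemma conjBy_mem {U : Matrix (Fin 3) (Fin 3) ℂ} (h : U.conjTranspose * U = 1) {P : Mat3}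
    (hP : P ∈ CP2) : conjBy U P ∈ CP2 := by
  rw [mem_CP2] at hP ⊢
  obtain ⟨h1, h2, h3⟩ := hP
  rw [of_conjBy]
  refine ⟨?_, ?_, ?_⟩
  · rw [Matrix.conjTranspose_mul, Matrix.conjTranspose_mul, h1, Matrix.conjTranspose_conjTranspose,
      Matrix.mul_assoc]
  · calc U * Matrix.of P * U.conjTranspose * (U * Matrix.of P * U.conjTranspose)
        = U * Matrix.of P * (U.conjTranspose * U) * Matrix.of P * U.conjTranspose := by
          simp only [Matrix.mul_assoc]
      _ = U * (Matrix.of P * Matrix.of P) * U.conjTranspose := by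
          rw [h, Matrix.mul_one]
          simp only [Matrix.mul_assoc]
      _ = _ := by rw [h2]
  · rw [Matrix.mul_assoc, Matrix.trace_mul_comm, Matrix.mul_assoc, h, Matrix.mul_one, h3]

lemma conjBy_inv {U : Matrix (Fin 3) (Fin 3) ℂ} (h : U.conjTranspose * U = 1) (P : Mat3) :
    conjBy U.conjTranspose (conjBy U P) = P := by
  have : Matrix.of (conjBy U.conjTranspose (conjBy U P)) = Matrix.of P := by
    rw [of_conjBy, of_conjBy, Matrix.conjTranspose_conjTranspose]
    calc U.conjTranspose * (U * Matrix.of P * U.conjTranspose) * U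
        = (U.conjTranspose * U) * Matrix.of P * (U.conjTranspose * U) := by
          simp only [Matrix.mul_assoc]
      _ = _ := by rw [h, Matrix.one_mul, Matrix.mul_one]
  exact Matrix.of.injective this

lemma conjBy_inv' {U : Matrix (Fin 3) (Fin 3) ℂ} (h : U * U.conjTranspose = 1) (P : Mat3) :
    conjBy U (conjBy U.conjTranspose P) = P := by
  have := conjBy_inv (U := U.conjTranspose) (by rwa [Matrix.conjTranspose_conjTranspose]) P
  rwa [Matrix.conjTranspose_conjTranspose] at this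

lemma fro_eq (A : Mat3) : (fro A : ℂ) = (Matrix.of A * (Matrix.of A).conjTranspose).trace := by
  rw [fro, Matrix.trace]
  push_cast
  refine Finset.sum_congr rfl fun i _ => ?_
  rw [Matrix.diag_apply, Matrix.mul_apply]
  refine Finset.sum_congr rfl fun j _ => ?_
  rw [Matrix.conjTranspose_apply]
  simp only [Matrix.of_apply]
  rw [← starRingEnd_apply, Complex.mul_conj, Complex.normSq_eq_norm_sq]
  push_cast
  rfl

lemma fro_conjBy {U : Matrix (Fin 3) (Fin 3) ℂ} (h : U.conjTranspose * U = 1) (A : Mat3) :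
    fro (conjBy U A) = fro A := by
  have : (fro (conjBy U A) : ℂ) = fro A := by
    rw [fro_eq, fro_eq, of_conjBy]
    rw [Matrix.conjTranspose_mul, Matrix.conjTranspose_mul, Matrix.conjTranspose_conjTranspose]
    calc (U * Matrix.of A * U.conjTranspose * (U * ((Matrix.of A).conjTranspose *
          U.conjTranspose))).trace
        = (U * Matrix.of A * (U.conjTranspose * U) * (Matrix.of A).conjTranspose *
          U.conjTranspose).trace := by simp only [Matrix.mul_assoc]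
      _ = (U * (Matrix.of A * (Matrix.of A).conjTranspose) * U.conjTranspose).trace := by
          rw [h, Matrix.mul_one]
          simp only [Matrix.mul_assoc]
      _ = _ := by rw [Matrix.mul_assoc, Matrix.trace_mul_comm, Matrix.mul_assoc, h, Matrix.mul_one]
  exact_mod_cast this

lemma conjBy_sub (U : Matrix (Fin 3) (Fin 3) ℂ) (P Q : Mat3) :
    conjBy U P - conjBy U Q = conjBy U (P - Q) := by
  have : Matrix.of (conjBy U P - conjBy U Q) = Matrix.of (conjBy U (P - Q)) := by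
    rw [of_conjBy]
    have e1 : Matrix.of (conjBy U P - conjBy U Q) =
        Matrix.of (conjBy U P) - Matrix.of (conjBy U Q) := rfl
    have e2 : Matrix.of (P - Q) = Matrix.of P - Matrix.of Q := rfl
    rw [e1, e2, of_conjBy, of_conjBy, Matrix.mul_sub, Matrix.sub_mul]
  exact Matrix.of.injective this

lemma contDiff_conjBy (U : Matrix (Fin 3) (Fin 3) ℂ) : ContDiff ℝ ∞ (conjBy U) := by
  unfold conjBy
  rw [contDiff_pi]
  intro i
  rw [contDiff_pi]
  intro j
  simp only [Matrix.mul_apply, Matrix.of_apply]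
  refine ContDiff.sum fun k _ => ContDiff.mul (ContDiff.sum fun l _ => ContDiff.mul contDiff_const ?_)
    contDiff_const
  exact contDiff_apply_apply ℝ ℂ l k

lemma isDiffeo_conjBy {U : Matrix (Fin 3) (Fin 3) ℂ} (h : U * U.conjTranspose = 1)
    (h' : U.conjTranspose * U = 1) : IsDiffeo CP2 (conjBy U) := by
  refine ⟨contDiff_conjBy U, fun P hP => conjBy_mem h' hP, conjBy U.conjTranspose,
    contDiff_conjBy _, fun P hP => conjBy_mem (by rwa [Matrix.conjTranspose_conjTranspose]) hP,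
    fun P _ => conjBy_inv h' P, fun P _ => conjBy_inv' h P⟩

/-! ### the complex conjugation -/

lemma bar_bar (P : Mat3) : bar (bar P) = P := by
  funext i j
  simp [bar]

lemma bar_mem {P : Mat3} (hP : P ∈ CP2) : bar P ∈ CP2 := by
  obtain ⟨h1, h2, h3⟩ := hP
  refine ⟨fun i j => ?_, fun i j => ?_, ?_⟩
  · simp only [bar]
    rw [h1 i j]
  · simp only [bar]
    rw [← h2 i j, star_sum]
    simp
  · simp only [bar]
    rw [← star_sum, h3, star_one]

lemma fro_bar (A : Mat3) : fro (bar A) = fro A := by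
  simp [fro, bar]

lemma bar_sub (P Q : Mat3) : bar P - bar Q = bar (P - Q) := by
  funext i j
  simp [bar]

lemma contDiff_bar : ContDiff ℝ ∞ bar := by
  unfold bar
  rw [contDiff_pi]
  intro i
  rw [contDiff_pi]
  intro j
  exact Complex.conjCLE.contDiff.comp (contDiff_apply_apply ℝ ℂ i j)

lemma isDiffeo_bar : IsDiffeo CP2 bar :=
  ⟨contDiff_bar, fun _ hP => bar_mem hP, bar, contDiff_bar, fun _ hP => bar_mem hP,
    fun P _ => bar_bar P, fun P _ => bar_bar P⟩

/-! ### the final statement -/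

theorem fin (hEQV : P_EQV) (hLOC : P_LOC) (hCPT : P_CPT) (hRET : P_RET) (hCON : P_CON)
    (hWIG : P_WIG) (hUNI : P_UNI) : P_FIN := by
  obtain ⟨ρ, hρ⟩ := retr hCON hRET
  obtain ⟨ε, δ₁, hε, hδ₁, hloc⟩ := hLOC _ MM ρ hρ
  obtain ⟨δ₂, hδ₂, hcpt⟩ := hCPT _ MM hρ.cpt ε hε
  refine ⟨min δ₁ δ₂, lt_min hδ₁ hδ₂, fun F hF hflat => ?_⟩
  have hF' : IsDiffeo MM fun x => ee (F (ee.symm x)) := isDiffeo_transfer ee hF
  have hflat' := flat_transfer hflat
  have hmono : ∀ {δ δ' : ℝ} {H : Eu (Fin 3 × Fin 3 × Fin 2) → Eu (Fin 3 × Fin 3 × Fin 2)},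
      Flat MM δ H → δ ≤ δ' → Flat MM δ' H := by
    intro δ δ' H h hd x hx r hr
    obtain ⟨l, hl, hf⟩ := h x hx r hr
    refine ⟨l, hl, fun y hy z hz h1 h2 => (hf y hy z hz h1 h2).trans ?_⟩
    have : 0 ≤ l * r ^ 2 := by positivity
    nlinarith
  obtain ⟨g, hgM, hgi, hgF⟩ := hcpt _ hF' (hmono hflat' (min_le_right _ _))
  obtain ⟨hrefl, hsymm, htrans, hcomp, hdcomp, hcongr⟩ := hEQV Mat3 CP2
  -- the main step: an isometry `G` close to `F`
  have key : ∀ G Gi : Mat3 → Mat3, IsDiffeo CP2 G → IsDiffeo CP2 Gi →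
      (∀ P ∈ CP2, Gi (G P) = P) → (∀ P ∈ CP2, G (Gi P) = P) →
      (∀ P ∈ CP2, ∀ Q ∈ CP2, ‖ee (Gi P) - ee (Gi Q)‖ = ‖ee P - ee Q‖) →
      (∀ P ∈ CP2, g (ee P) = ee (G P)) → Isotopic CP2 G F := by
    intro G Gi hG hGi hGiG hGGi hiso hgG
    have hH : IsDiffeo CP2 (F ∘ Gi) := hdcomp F Gi hF hGi
    have hH' : IsDiffeo MM fun x => ee ((F ∘ Gi) (ee.symm x)) := isDiffeo_transfer ee hH
    have hflatH : Flat MM δ₁ fun x => ee ((F ∘ Gi) (ee.symm x)) := by
      rintro _ ⟨P, hP, rfl⟩ r hr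
      obtain ⟨l, hl, hf⟩ := (hmono hflat' (min_le_left _ _)) (ee (Gi P)) ⟨_, hGi.2.1 hP, rfl⟩ r hr
      refine ⟨l, hl, ?_⟩
      rintro _ ⟨Q, hQ, rfl⟩ _ ⟨S, hS, rfl⟩ h1 h2
      have h3 := hf (ee (Gi Q)) ⟨_, hGi.2.1 hQ, rfl⟩ (ee (Gi S)) ⟨_, hGi.2.1 hS, rfl⟩
        (by rwa [hiso Q hQ P hP]) (by rwa [hiso S hS P hP])
      rw [hiso Q hQ S hS] at h3
      simpa using h3
    have hclose : ∀ x ∈ MM, ‖ee ((F ∘ Gi) (ee.symm x)) - x‖ ≤ ε := by
      rintro _ ⟨P, hP, rfl⟩
      have h1 := hgF (ee (Gi P)) ⟨_, hGi.2.1 hP, rfl⟩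
      rw [hgG _ (hGi.2.1 hP), hGGi P hP] at h1
      simpa using h1
    have h4 : Isotopic MM (fun x => x) fun x => ee ((F ∘ Gi) (ee.symm x)) :=
      hloc _ hH' hflatH hclose
    have h5 : Isotopic CP2 (fun P => ee.symm (ee P))
        fun P => ee.symm (ee ((F ∘ Gi) (ee.symm (ee P)))) :=
      isotopic_transfer ee h4
    simp only [ContinuousLinearEquiv.symm_apply_apply] at h5
    have h6 := hcomp _ _ G h5 hG
    refine hcongr _ _ _ _ h6 (fun P _ => rfl) (fun P hP => ?_)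
    simp [hGiG P hP]
  -- Wigner's theorem
  have hwig := hWIG (fun P => ee.symm (g (ee P))) ?_ ?_
  · obtain ⟨U, hU1, hU2, h | h⟩ := hwig
    · left
      have hg : ∀ P ∈ CP2, g (ee P) = ee (conjBy U P) := by
        intro P hP
        rw [← h P hP]
        simp
      refine htrans _ _ _ (hUNI hCON U hU1 hU2) (key (conjBy U) (conjBy U.conjTranspose)
        (isDiffeo_conjBy hU1 hU2) (isDiffeo_conjBy ?_ ?_) (fun P _ => conjBy_inv hU2 P)
        (fun P _ => conjBy_inv' hU1 P) ?_ hg)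
      · rwa [Matrix.conjTranspose_conjTranspose]
      · rwa [Matrix.conjTranspose_conjTranspose]
      · intro P _ Q _
        have h7 : ‖ee (conjBy U.conjTranspose P) - ee (conjBy U.conjTranspose Q)‖ ^ 2 =
            ‖ee P - ee Q‖ ^ 2 := by
          rw [← map_sub, ← map_sub, norm_ee, norm_ee, conjBy_sub, fro_conjBy]
          rwa [Matrix.conjTranspose_conjTranspose]
        exact (sq_eq_sq₀ (norm_nonneg _) (norm_nonneg _)).1 h7
    · right
      have hg : ∀ P ∈ CP2, g (ee P) = ee ((conjBy U ∘ bar) P) := by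
        intro P hP
        rw [Function.comp_apply, ← h P hP]
        simp
      have h8 : Isotopic CP2 ((fun P => P) ∘ bar) (conjBy U ∘ bar) :=
        hcomp _ _ _ (hUNI hCON U hU1 hU2) isDiffeo_bar
      have h9 : Isotopic CP2 bar (conjBy U ∘ bar) :=
        hcongr _ _ _ _ h8 (fun P _ => rfl) (fun P _ => rfl)
      have hUi : IsDiffeo CP2 (conjBy U.conjTranspose) := by
        refine isDiffeo_conjBy ?_ ?_
        · rwa [Matrix.conjTranspose_conjTranspose]
        · rwa [Matrix.conjTranspose_conjTranspose]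
      refine htrans _ _ _ h9 (key (conjBy U ∘ bar) (bar ∘ conjBy U.conjTranspose)
        (hdcomp _ _ (isDiffeo_conjBy hU1 hU2) isDiffeo_bar) (hdcomp _ _ isDiffeo_bar hUi)
        (fun P _ => ?_) (fun P _ => ?_) ?_ hg)
      · simp [conjBy_inv hU2, bar_bar]
      · simp [conjBy_inv' hU1, bar_bar]
      · intro P _ Q _
        have h7 : ‖ee ((bar ∘ conjBy U.conjTranspose) P) - ee ((bar ∘ conjBy U.conjTranspose) Q)‖ ^ 2
            = ‖ee P - ee Q‖ ^ 2 := by
          rw [← map_sub, ← map_sub, norm_ee, norm_ee, Function.comp_apply, Function.comp_apply,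
            bar_sub, conjBy_sub, fro_bar, fro_conjBy]
          rwa [Matrix.conjTranspose_conjTranspose]
        exact (sq_eq_sq₀ (norm_nonneg _) (norm_nonneg _)).1 h7
  · intro P hP
    obtain ⟨Q, hQ, hQe⟩ := hgM (mem_image_of_mem ee hP)
    have : ee.symm (g (ee P)) = Q := by rw [← hQe]; simp
    simpa [this] using hQ
  · intro P hP Q hQ
    rw [← norm_ee_sub, ← norm_ee_sub]
    simp only [ContinuousLinearEquiv.apply_symm_apply]
    rw [hgi _ (mem_image_of_mem ee hP) _ (mem_image_of_mem ee hQ)]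

end Final

end Pool.Agent.W2helper44.CP
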