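import Pool.Agent.W2helper44.CP.Stm

/-! # Project CP: the local theorem from the pieces -/

set_option autoImplicit false

open Set Filter Topology MeasureTheory
open scoped ContDiff

noncomputable section

namespace Pool.Agent.W2helper44.CP

lemma Flat.mono {ι : Type} [Fintype ι] {M : Set (Eu ι)} {δ δ' : ℝ} {F : Eu ι → Eu ι}
    (h : Flat M δ F) (hd : δ ≤ δ') : Flat M δ' F := by
  intro x hx r hr
  obtain ⟨l, hl, hf⟩ := h x hx r hr
  refine ⟨l, hl, fun y hy z hz h1 h2 => (hf y hy z hz h1 h2).trans ?_⟩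
  have : 0 ≤ l * r ^ 2 := by positivity
  nlinarith

/-- a diffeomorphism is bounded below -/
lemma IsDiffeo.lower {V : Type} [NormedAddCommGroup V] [NormedSpace ℝ V] [FiniteDimensional ℝ V]
    {M : Set V} (hM : IsCompact M) {F : V → V} (hF : IsDiffeo M F) :
    ∃ c : ℝ, 0 < c ∧ ∀ x ∈ M, ∀ y ∈ M, c * ‖x - y‖ ≤ ‖F x - F y‖ := by
  obtain ⟨hFs, hFM, G, hG, hGM, hGF, hFG⟩ := hF
  obtain ⟨R, hR⟩ := hM.isBounded.subset_closedBall (0 : V)
  have hcb : IsCompact (Metric.closedBall (0 : V) R) := isCompact_closedBall 0 R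
  have hcont : Continuous fun x => ‖fderiv ℝ G x‖ :=
    (hG.continuous_fderiv (by simp)).norm
  obtain ⟨C, hC⟩ := hcb.exists_bound_of_continuousOn hcont.continuousOn
  have hlip : ∀ a ∈ Metric.closedBall (0 : V) R, ∀ b ∈ Metric.closedBall (0 : V) R,
      ‖G b - G a‖ ≤ C * ‖b - a‖ := by
    intro a ha b hb
    refine (convex_closedBall (0 : V) R).norm_image_sub_le_of_norm_fderiv_le (𝕜 := ℝ)
      (fun x _ => (hG.differentiable (by simp)).differentiableAt) (fun x hx => ?_) ha hb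
    simpa using hC x hx
  refine ⟨1 / (|C| + 1), by positivity, fun x hx y hy => ?_⟩
  have h1 := hlip (F y) (hR (hFM hy)) (F x) (hR (hFM hx))
  rw [hGF x hx, hGF y hy] at h1
  rw [div_mul_eq_mul_div, div_le_iff₀ (by positivity), one_mul]
  calc ‖x - y‖ ≤ C * ‖F x - F y‖ := h1
    _ ≤ (|C| + 1) * ‖F x - F y‖ := by
        gcongr
        linarith [le_abs_self C]
    _ = ‖F x - F y‖ * (|C| + 1) := by ring

lemma mol_sub_le {ι : Type} [Fintype ι] {K : Eu ι → ℝ} (hK : Ker K) {h : Eu ι → Eu ι}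
    (hh : Continuous h) (r : ℝ) (x c : Eu ι) {B : ℝ}
    (hB : ∀ v : Eu ι, ‖v‖ ≤ 1 → ‖h (x + r • v) - c‖ ≤ B) : ‖mol K h (r, x) - c‖ ≤ B := by
  have hKc : Continuous K := hK.smooth.continuous
  have hcs : HasCompactSupport K := by
    apply HasCompactSupport.intro (isCompact_closedBall (0 : Eu ι) 1)
    intro v hv
    apply hK.supp
    simp only [Metric.mem_closedBall, dist_zero_right, not_le] at hv
    exact hv.le
  have hint : Integrable K := hKc.integrable_of_hasCompactSupport hcs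
  have hint2 : Integrable fun v => K v • h (x + r • v) := by
    apply Continuous.integrable_of_hasCompactSupport
    · exact hKc.smul (hh.comp (by fun_prop : Continuous fun v : Eu ι => x + r • v))
    · exact hcs.smul_right
  have e1 : mol K h (r, x) - c = ∫ v, K v • (h (x + r • v) - c) := by
    unfold mol
    simp only [smul_sub]
    rw [integral_sub hint2 (hint.smul_const c), integral_smul_const, hK.int, one_smul]
  rw [e1]
  have hb : ∀ v, ‖K v • (h (x + r • v) - c)‖ ≤ K v * B := by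
    intro v
    rw [norm_smul, Real.norm_of_nonneg (hK.nonneg v)]
    by_cases hv : ‖v‖ ≤ 1
    · exact mul_le_mul_of_nonneg_left (hB v hv) (hK.nonneg v)
    · rw [hK.supp v (le_of_not_ge hv)]; simp
  calc ‖∫ v, K v • (h (x + r • v) - c)‖ ≤ ∫ v, K v * B :=
        norm_integral_le_of_norm_le (hint.mul_const B) (Eventually.of_forall hb)
    _ = B := by rw [integral_mul_const, hK.int, one_mul]

theorem loc (hEQV : P_EQV) (hGEO : P_GEO) (hINV : P_INV) (hNEAR : P_NEAR) (hKER : P_KER)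
    (hMOL : P_MOL) (hCLOSE : P_CLOSE) (hFAR : P_FAR) (hUP : P_UP) : P_LOC := by
  intro ι _ M ρ hM
  obtain ⟨K, hK⟩ := hKER ι
  obtain ⟨η, L, hη, hL, hgM, hgL, -, -, -, -, -⟩ := hGEO ι M ρ hM
  obtain ⟨ε₁, hε₁, hinv⟩ := hINV hGEO ι M ρ hM
  obtain ⟨κ, hκ, hnear⟩ := hNEAR hGEO hINV ι M ρ hM
  obtain ⟨b, r₂, δ₂, hb, hr₂, hδ₂, hfar⟩ := hFAR hGEO hMOL ι M ρ K hM hK
  obtain ⟨r₃, δ₃, hr₃, hδ₃, hclose⟩ := hCLOSE hGEO hMOL ι M ρ K hM hK b hb
  obtain ⟨r₄, hr₄, hup⟩ := hUP hGEO hMOL ι M ρ K hM hK κ hκ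
  -- the final scale
  obtain ⟨r₀, hr₀, hr₀2, hr₀3, hr₀4, hr₀5, hr₀6⟩ : ∃ r₀ : ℝ, 0 < r₀ ∧ r₀ ≤ r₂ ∧ r₀ ≤ r₃ ∧ r₀ ≤ r₄ ∧
      L * (L * r₀ + r₀) ≤ ε₁ ∧ L * r₀ + r₀ ≤ η := by
    have hL0 : 0 < L := by linarith
    refine ⟨min (min r₂ r₃) (min r₄ (min (ε₁ / (L * (L + 1))) (η / (L + 1)))), ?_, ?_, ?_, ?_, ?_, ?_⟩
    · refine lt_min (lt_min hr₂ hr₃) (lt_min hr₄ (lt_min ?_ ?_)) <;> positivity
    · exact (min_le_left _ _).trans (min_le_left _ _)
    · exact (min_le_left _ _).trans (min_le_right _ _)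
    · exact (min_le_right _ _).trans (min_le_left _ _)
    · have h := (min_le_right (min r₂ r₃) (min r₄ (min (ε₁ / (L * (L + 1))) (η / (L + 1))))).trans
        ((min_le_right _ _).trans (min_le_left _ _))
      rw [le_div_iff₀ (by positivity)] at h
      nlinarith
    · have h := (min_le_right (min r₂ r₃) (min r₄ (min (ε₁ / (L * (L + 1))) (η / (L + 1))))).trans
        ((min_le_right _ _).trans (min_le_right _ _))
      rw [le_div_iff₀ (by positivity)] at h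
      nlinarith
  obtain ⟨ε₂, hε₂, hup2⟩ := hup r₀ hr₀ hr₀4
  refine ⟨min r₀ ε₂, min δ₂ δ₃, lt_min hr₀ hε₂, lt_min hδ₂ hδ₃, fun F hF hflat hclo => ?_⟩
  have hFs := hF.1
  have hFM := hF.2.1
  have hclo0 : ∀ x ∈ M, ‖F x - x‖ ≤ r₀ := fun x hx => (hclo x hx).trans (min_le_left _ _)
  have hclo2 : ∀ x ∈ M, ‖F x - x‖ ≤ ε₂ := fun x hx => (hclo x hx).trans (min_le_right _ _)
  obtain ⟨c, hc, hlow⟩ := hF.lower hM.cpt
  have hFρ : ContDiff ℝ ∞ fun y => F (ρ y) := hFs.comp hM.smooth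
  have hmol := hMOL ι K (fun y => F (ρ y)) hK hFρ
  have hid : ∀ x ∈ M, ρ x = x := hM.id
  -- positions
  have hpos : ∀ r : ℝ, 0 ≤ r → r ≤ r₀ → ∀ x ∈ M,
      ‖mol K (fun y => F (ρ y)) (r, x) - x‖ ≤ L * r₀ + r₀ := by
    intro r hr0 hr x hx
    refine mol_sub_le hK hFρ.continuous r x x (fun v hv => ?_)
    have hd : ‖x + r • v - x‖ ≤ r₀ := by
      rw [add_sub_cancel_left, norm_smul, Real.norm_of_nonneg hr0]
      calc r * ‖v‖ ≤ r * 1 := by gcongr
        _ ≤ r₀ := by linarith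
    have hd' : ‖x + r • v - x‖ ≤ η := hd.trans (by nlinarith)
    have h1 : ρ (x + r • v) ∈ M := hgM x hx _ hd'
    have h2 := (hgL x hx (x + r • v) x hd' (by simpa using hη.le)).1
    rw [hid x hx] at h2
    calc ‖F (ρ (x + r • v)) - x‖ = ‖(F (ρ (x + r • v)) - ρ (x + r • v)) + (ρ (x + r • v) - x)‖ := by
          congr 1; abel
      _ ≤ ‖F (ρ (x + r • v)) - ρ (x + r • v)‖ + ‖ρ (x + r • v) - x‖ := norm_add_le _ _
      _ ≤ r₀ + L * r₀ := add_le_add (hclo0 _ h1) (h2.trans (by gcongr))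
      _ = L * r₀ + r₀ := by ring
  have hpsiM : ∀ r : ℝ, 0 ≤ r → r ≤ r₀ → MapsTo (psi ρ K F r) M M := by
    intro r hr0 hr x hx
    exact hgM x hx _ ((hpos r hr0 hr x hx).trans hr₀6)
  have hpsiε : ∀ r : ℝ, 0 ≤ r → r ≤ r₀ → ∀ x ∈ M, ‖psi ρ K F r x - x‖ ≤ ε₁ := by
    intro r hr0 hr x hx
    have h2 := (hgL x hx _ x ((hpos r hr0 hr x hx).trans hr₀6) (by simpa using hη.le)).1
    rw [hid x hx] at h2
    calc ‖psi ρ K F r x - x‖ ≤ L * ‖mol K (fun y => F (ρ y)) (r, x) - x‖ := h2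
      _ ≤ L * (L * r₀ + r₀) := by
          gcongr
          exact hpos r hr0 hr x hx
      _ ≤ ε₁ := hr₀5
  have hpsi0 : ∀ x ∈ M, psi ρ K F 0 x = F x := by
    intro x hx
    unfold psi mol
    simp only [zero_smul, add_zero]
    rw [integral_smul_const, hK.int, one_smul, hid x hx]
    exact hid _ (hFM hx)
  have hsm : ∀ r : ℝ, ContDiff ℝ ∞ (psi ρ K F r) := by
    intro r
    unfold psi
    exact hM.smooth.comp (hmol.1.comp (contDiff_const.prodMk contDiff_id))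
  have hdiff : ∀ r : ℝ, 0 ≤ r → r ≤ r₀ → IsDiffeo M (psi ρ K F r) := by
    intro r hr0 hr
    rcases hr0.eq_or_lt with h | h
    · subst h
      obtain ⟨-, -, G, hG, hGM, hGF, hFG⟩ := hF
      refine ⟨hsm 0, hpsiM 0 le_rfl hr, G, hG, hGM, fun x hx => ?_, fun x hx => ?_⟩
      · rw [hpsi0 x hx]; exact hGF x hx
      · rw [hpsi0 _ (hGM hx)]; exact hFG x hx
    · refine hinv _ (hsm r) (hpsiM r hr0 hr) (hpsiε r hr0 hr) ⟨c / 8, by positivity, ?_⟩
      intro x hx y hy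
      rcases le_total ‖x - y‖ (b * r) with h1 | h1
      · exact hclose F hFs hFM (hflat.mono (min_le_right _ _))
          (fun x hx => (hclo0 x hx).trans hr₀3) c hc hlow r h (hr.trans hr₀3) x hx y hy h1
      · exact hfar F hFs hFM (hflat.mono (min_le_left _ _))
          (fun x hx => (hclo0 x hx).trans hr₀2) c hc hlow r h (hr.trans hr₀2) x hx y hy h1
  have hiso1 : Isotopic M F (psi ρ K F r₀) := by
    refine ⟨fun q => psi ρ K F (r₀ * Real.smoothTransition q.1) q.2, ?_, fun t => ?_, fun x hx => ?_,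
      fun x hx => ?_⟩
    · unfold psi
      refine hM.smooth.comp (hmol.1.comp ?_)
      exact (contDiff_const.mul (Real.smoothTransition.contDiff.comp contDiff_fst)).prodMk
        contDiff_snd
    · refine hdiff _ (mul_nonneg hr₀.le (Real.smoothTransition.nonneg t)) ?_
      calc r₀ * Real.smoothTransition t ≤ r₀ * 1 := by
            gcongr
            exact Real.smoothTransition.le_one t
        _ = r₀ := mul_one _
    · simp only [Real.smoothTransition.zero, mul_zero]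
      exact hpsi0 x hx
    · simp only [Real.smoothTransition.one, mul_one]
  obtain ⟨hu1, hu2⟩ := hup2 F hFs hFM hclo2
  have hiso2 : Isotopic M (fun x => x) (psi ρ K F r₀) :=
    hnear _ (hsm r₀) (hpsiM r₀ hr₀.le le_rfl) hu1 hu2
  obtain ⟨-, hsymm, htrans, -⟩ := hEQV (Eu ι) M
  exact htrans _ _ _ hiso2 (hsymm _ _ hiso1)

end Pool.Agent.W2helper44.CP
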