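import Mathlib

/-!
# Project CP (helper44, MP_28b04d_gt): diffeomorphisms of `CP²` that are almost similarities on all
balls are smoothly isotopic to the identity or to the complex conjugation.  Statements.

`Eu ι` is the Euclidean space.  `M` is a compact connected submanifold, given by a smooth map `ρ`
which is the identity on `M` and maps a neighbourhood of `M` to `M`.  For a diffeomorphism `F` of `M`
which is almost a similarity on all balls (`Flat`) and close to the identity, the mollifications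
`ψ_r = ρ (∫ K(v) F(ρ(x + r v)) dv)`, `0 ≤ r ≤ r₀`, are diffeomorphisms; the last one is `C¹`-close to
the identity.
-/

set_option autoImplicit false

open Set Filter Topology MeasureTheory
open scoped ContDiff

noncomputable section

namespace Pool.Agent.W2helper44.CP

/-- the Euclidean space with coordinates indexed by `ι` -/
abbrev Eu (ι : Type) [Fintype ι] := EuclideanSpace ℝ ι

/-- `F` restricts to a diffeomorphism of `M` -/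
def IsDiffeo {V : Type} [NormedAddCommGroup V] [NormedSpace ℝ V] (M : Set V) (F : V → V) : Prop :=
  ContDiff ℝ ∞ F ∧ MapsTo F M M ∧ ∃ G : V → V, ContDiff ℝ ∞ G ∧ MapsTo G M M ∧
    (∀ x ∈ M, G (F x) = x) ∧ ∀ x ∈ M, F (G x) = x

/-- `F₀` and `F₁` are joined by a smooth path of diffeomorphisms of `M` -/
def Isotopic {V : Type} [NormedAddCommGroup V] [NormedSpace ℝ V] (M : Set V) (F₀ F₁ : V → V) :
    Prop :=
  ∃ K : ℝ × V → V, ContDiff ℝ ∞ K ∧ (∀ t : ℝ, IsDiffeo M fun x => K (t, x)) ∧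
    (∀ x ∈ M, K (0, x) = F₀ x) ∧ ∀ x ∈ M, K (1, x) = F₁ x

/-- `M` is a compact connected submanifold, `ρ` a smooth retraction of a neighbourhood -/
structure Retr {V : Type} [NormedAddCommGroup V] [NormedSpace ℝ V] (M : Set V) (ρ : V → V) :
    Prop where
  cpt : IsCompact M
  conn : IsPreconnected M
  ne : M.Nonempty
  smooth : ContDiff ℝ ∞ ρ
  nbhd : ∃ η : ℝ, 0 < η ∧ ∀ x ∈ M, ∀ y, ‖y - x‖ ≤ η → ρ y ∈ M
  id : ∀ x ∈ M, ρ x = x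

/-- on each ball `F` is almost a similarity, with factor `√l` -/
def Flat {ι : Type} [Fintype ι] (M : Set (Eu ι)) (δ : ℝ) (F : Eu ι → Eu ι) : Prop :=
  ∀ x ∈ M, ∀ r : ℝ, 0 < r → ∃ l : ℝ, 0 < l ∧ ∀ y ∈ M, ∀ z ∈ M, ‖y - x‖ ≤ r → ‖z - x‖ ≤ r →
    |‖F y - F z‖ ^ 2 - l * ‖y - z‖ ^ 2| ≤ δ * l * r ^ 2

/-- a mollifying kernel -/
structure Ker {ι : Type} [Fintype ι] (K : Eu ι → ℝ) : Prop where
  smooth : ContDiff ℝ ∞ K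
  nonneg : ∀ v, 0 ≤ K v
  supp : ∀ v, 1 ≤ ‖v‖ → K v = 0
  int : ∫ v, K v = 1

/-- the mollification of `h` at scale `q.1` at the point `q.2` -/
def mol {ι : Type} [Fintype ι] (K : Eu ι → ℝ) (h : Eu ι → Eu ι) (q : ℝ × Eu ι) : Eu ι :=
  ∫ v, K v • h (q.2 + q.1 • v)

/-- the mollification of the map `F` of `M` at scale `r` -/
def psi {ι : Type} [Fintype ι] (ρ : Eu ι → Eu ι) (K : Eu ι → ℝ) (F : Eu ι → Eu ι) (r : ℝ)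
    (x : Eu ι) : Eu ι :=
  ρ (mol K (fun y => F (ρ y)) (r, x))

/-! ### general pieces -/

/-- EQV: smooth isotopy is an equivalence relation.  For transitivity:
`K (t, x) = (1 - α t) • K₁ (σ (3 t), x) + α t • K₂ (σ (3 t - 2), x)` with `σ = Real.smoothTransition`,
`α t = σ (3 t - 1)`: for `1/3 ≤ t ≤ 2/3` both terms are `G x` on `M`. -/
def P_EQV : Prop := ∀ (V : Type) [NormedAddCommGroup V] [NormedSpace ℝ V] (M : Set V),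
  (∀ F, IsDiffeo M F → Isotopic M F F) ∧
  (∀ F G, Isotopic M F G → Isotopic M G F) ∧
  (∀ F G H, Isotopic M F G → Isotopic M G H → Isotopic M F H) ∧
  (∀ F G h, Isotopic M F G → IsDiffeo M h → Isotopic M (F ∘ h) (G ∘ h)) ∧
  (∀ F G, IsDiffeo M F → IsDiffeo M G → IsDiffeo M (F ∘ G)) ∧
  (∀ F G F' G', Isotopic M F G → (∀ x ∈ M, F' x = F x) → (∀ x ∈ M, G' x = G x) →
    Isotopic M F' G')

/-- GEO: uniform constants for `M` and `ρ` (compactness; the derivative of `ρ ∘ ρ = ρ` near `M`;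
mean value inequality on balls).  The last one: with the segments `z_s` from `y` to `x` and `a_s` from
`b` to `a`, `ρ a - ρ b - (ρ x - ρ y) = ∫ Dρ(a_s) (a - b) - Dρ(z_s) (x - y)`. -/
def P_GEO : Prop := ∀ (ι : Type) [Fintype ι] (M : Set (Eu ι)) (ρ : Eu ι → Eu ι), Retr M ρ →
  ∃ η L : ℝ, 0 < η ∧ 1 ≤ L ∧
    (∀ x ∈ M, ∀ y, ‖y - x‖ ≤ η → ρ y ∈ M) ∧
    (∀ x ∈ M, ∀ y z, ‖y - x‖ ≤ η → ‖z - x‖ ≤ η → ‖ρ y - ρ z‖ ≤ L * ‖y - z‖ ∧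
      ‖fderiv ℝ ρ y - fderiv ℝ ρ z‖ ≤ L * ‖y - z‖) ∧
    (∀ x ∈ M, ∀ y, ‖y - x‖ ≤ η → ‖fderiv ℝ ρ y‖ ≤ L) ∧
    (∀ x ∈ M, ∀ y, ‖y - x‖ ≤ η → ‖ρ y - x - fderiv ℝ ρ x (y - x)‖ ≤ L * ‖y - x‖ ^ 2) ∧
    (∀ x ∈ M, ∀ y ∈ M, ‖y - x‖ ≤ η → ‖y - x - fderiv ℝ ρ x (y - x)‖ ≤ L * ‖y - x‖ ^ 2) ∧
    (∀ x ∈ M, ∀ u, fderiv ℝ ρ x (fderiv ℝ ρ x u) = fderiv ℝ ρ x u) ∧
    (∀ x ∈ M, ∀ y ∈ M, ∀ a b, ‖x - y‖ ≤ η → ‖a - x‖ ≤ η → ‖b - y‖ ≤ η →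
      ‖ρ a - ρ b - (x - y)‖ ≤ L * (‖a - x‖ + ‖b - y‖) * ‖x - y‖ + L * ‖(a - x) - (b - y)‖)

/-- INV: a smooth injective map of `M` close to the identity is a diffeomorphism.
Proof. `Ψ y = ψ (ρ y) + y - ρ y`.  At `x ∈ M`, with `T = Dρ(x)`, `DΨ(x) u = Dψ(x) T u + (u - T u)`.
If it is `0`, `n = u - T u` lies in the range of `Dρ(ψ x)` (as `ρ ∘ ψ ∘ ρ = ψ ∘ ρ` near `M`) and in the
kernel of `T`, so `‖n‖ = ‖(Dρ(ψ x) - Dρ(x)) n‖ ≤ L ε ‖n‖` and `n = 0`; then `Dψ(x) T u = 0`, and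
`‖Dψ(x) a‖ ≥ c ‖a‖` for `a = T a` (difference quotients along `s ↦ ρ(x + s a)`), so `u = 0`.  So `Ψ` has a
smooth local inverse `g` near `ψ x` (`ContDiffAt.toOpenPartialHomeomorph` or
`HasStrictFDerivAt.toOpenPartialHomeomorph`, `ContDiffAt.to_localInverse`).  `ψ(M)` is open in `M`: let
`z ∈ M` near `ψ x`, `y = g z`, `n = y - ρ y`, `a = ψ (ρ y)`, so `z = a + n`: `‖n - Dρ(a) n‖ ≤ L ‖n‖²` (chord
`z - a`), `‖Dρ(ρ y) n‖ ≤ L ‖n‖²` (as `ρ (ρ y + n) = ρ y`), `‖Dρ(a) - Dρ(ρ y)‖ ≤ L ε`; so `n = 0` and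
`z = ψ(ρ y)`.  By connectedness `ψ(M) = M`.  The inverse `ℓ` on `M` is Lipschitz; `ℓ = g` on `M` near
`ψ x`; glue with a partition of unity: `exists_contMDiff_forall_mem_convex_of_local` for the convex
sets `{ℓ z}` (`z ∈ M`) and `univ` (`z ∉ M`).  `P_GEO` may be used as a hypothesis. -/
def P_INV : Prop := P_GEO → ∀ (ι : Type) [Fintype ι] (M : Set (Eu ι)) (ρ : Eu ι → Eu ι), Retr M ρ →
  ∃ ε : ℝ, 0 < ε ∧ ∀ ψ : Eu ι → Eu ι, ContDiff ℝ ∞ ψ → MapsTo ψ M M →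
    (∀ x ∈ M, ‖ψ x - x‖ ≤ ε) →
    (∃ c : ℝ, 0 < c ∧ ∀ x ∈ M, ∀ y ∈ M, c * ‖x - y‖ ≤ ‖ψ x - ψ y‖) → IsDiffeo M ψ

/-- INV1: the first half of INV, local inverses of `Ψ y = ψ (ρ y) + (y - ρ y)` near `M` -/
def P_INV1 : Prop := P_GEO → ∀ (ι : Type) [Fintype ι] (M : Set (Eu ι)) (ρ : Eu ι → Eu ι), Retr M ρ →
  ∃ ε : ℝ, 0 < ε ∧ ∀ ψ : Eu ι → Eu ι, ContDiff ℝ ∞ ψ → MapsTo ψ M M →
    (∀ x ∈ M, ‖ψ x - x‖ ≤ ε) →
    (∃ c : ℝ, 0 < c ∧ ∀ x ∈ M, ∀ y ∈ M, c * ‖x - y‖ ≤ ‖ψ x - ψ y‖) →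
    ∀ x ∈ M, ∃ (g : Eu ι → Eu ι) (U : Set (Eu ι)), IsOpen U ∧ ψ x ∈ U ∧ ContDiffOn ℝ ∞ g U ∧
      g (ψ x) = x ∧ (∀ᶠ y in 𝓝 x, g (ψ (ρ y) + (y - ρ y)) = y) ∧
      ∀ z ∈ U, ψ (ρ (g z)) + (g z - ρ (g z)) = z

/-- INV2: the second half of INV (`ψ(M)` open in `M`, connectedness, gluing) -/
def P_INV2 : Prop := P_INV1 → P_INV

/-- NEAR: maps `C¹`-close to the identity are isotopic to the identity, by
`K (t, x) = ρ (x + σ(t) (ψ x - x))`, `σ = Real.smoothTransition`; apply `P_INV` to each `K (t, ·)`; the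
lower bound is the last inequality of `P_GEO` with `a = x + σ (ψ x - x)`, `b = y + σ (ψ y - y)` (for
`‖x - y‖ ≥ η` use `‖ψ x - x‖ ≤ κ`). -/
def P_NEAR : Prop := P_GEO → P_INV → ∀ (ι : Type) [Fintype ι] (M : Set (Eu ι)) (ρ : Eu ι → Eu ι),
  Retr M ρ → ∃ κ : ℝ, 0 < κ ∧ ∀ ψ : Eu ι → Eu ι, ContDiff ℝ ∞ ψ → MapsTo ψ M M →
    (∀ x ∈ M, ‖ψ x - x‖ ≤ κ) →
    (∀ x ∈ M, ∀ y ∈ M, ‖(ψ x - x) - (ψ y - y)‖ ≤ κ * ‖x - y‖) →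
    Isotopic M (fun x => x) ψ

/-- KER: there is a kernel (`ContDiffBump.normed`) -/
def P_KER : Prop := ∀ (ι : Type) [Fintype ι], ∃ K : Eu ι → ℝ, Ker K

/-- MOL: the mollification is smooth in both variables
(`contDiffOn_convolution_right_with_param_comp` or `contDiff_of_...`; multiply `h` by a cut-off in the
variable `v`), and its derivative (differentiate under the integral, integration by parts:
`integral_bilinear_hasFDerivAt_right_eq_neg_left_of_integrable`; `∫ DK(v) w dv = 0`). -/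
def P_MOL : Prop := ∀ (ι : Type) [Fintype ι] (K : Eu ι → ℝ) (h : Eu ι → Eu ι), Ker K →
  ContDiff ℝ ∞ h → ContDiff ℝ ∞ (mol K h) ∧
  ∀ r : ℝ, 0 < r → ∀ z w c : Eu ι,
    fderiv ℝ (fun x => mol K h (r, x)) z w =
      -(1 / r) • ∫ v, (fderiv ℝ K v w) • (h (z + r • v) - c)

/-- CLOSE: the main estimate.
Proof (`L`, `η` from `P_GEO`, `C` denotes constants which depend on `M, ρ, K, b`).
Let `0 < ‖w‖ ≤ b r`, `w = y - x`, `ŵ = w / ‖w‖`, `T = Dρ(x)`, `R = L (b + 1) r`, `l = l(x, R)` from `Flat`,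
`p = ρ(x + r ŵ) ∈ M`, `f = F p - F x`.  It suffices to bound below the derivative of
`s ↦ ⟪f, ψ_r(x + s w)⟫`, `0 ≤ s ≤ 1`.  Let `z = x + s w`, `Φ = mol K (F ∘ ρ) (r, ·)`, `q = q(v) = ρ(z + r v)`
(`‖v‖ ≤ 1`; so `q ∈ M`, `‖q - x‖ ≤ R`).  By `P_MOL`
`DΦ(z) w = -(1/r) ∫ (DK(v) w) (F q - F x) dv`.  Polarization:
`⟪F q - F x, f⟫ = l ⟪q - x, p - x⟫ + O(δ l R²)`, and `q - x = T(s w + r v) + O(r²)`,
`p - x = r T ŵ + O(r²)`, `T ŵ = ŵ + O(r)`.  As `∫ (DK(v) w) dv = 0` and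
`-∫ (DK(v) w) ⟪T v, ŵ⟫ dv = ⟪T w, ŵ⟫` (this is `P_MOL` for `h = T`, `r = 1`, or integration by parts)
we get `⟪DΦ(z) w, f⟫ = l r ‖w‖ (1 + O(r + δ))`.
Further `‖F q - F x‖ ≤ C √l r` and `≤ ‖q - x‖ + 2 r₁ ≤ C r₁`; `‖DΦ(z) w‖ ≤ C √l ‖w‖`;
`‖Dρ(Φ z) - Dρ(F x)‖ ≤ L ‖Φ z - F x‖ ≤ C r₁`; and
`‖DΦ(z) w - Dρ(F x) DΦ(z) w‖ ≤ (‖w‖/r) C sup ‖F q - F x‖² ≤ C √l ‖w‖ r₁` (chords of `M` at `F x`).  So
`⟪Dρ(Φ z) DΦ(z) w, f⟫ ≥ l r ‖w‖ (1 - C (r₁ + δ)) ≥ l r ‖w‖ / 2`.  Finally `‖f‖ ≤ (3/2) √l r` and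
`c ‖p - x‖ ≤ ‖f‖` gives `√l ≥ (3/4) c`; so `‖ψ_r y - ψ_r x‖ ≥ l r ‖w‖ / (2 ‖f‖) ≥ (c/8) ‖w‖`. -/
def P_CLOSE : Prop := P_GEO → P_MOL → ∀ (ι : Type) [Fintype ι] (M : Set (Eu ι)) (ρ : Eu ι → Eu ι)
  (K : Eu ι → ℝ), Retr M ρ → Ker K → ∀ b : ℝ, 1 ≤ b → ∃ r₁ δ₁ : ℝ, 0 < r₁ ∧ 0 < δ₁ ∧
    ∀ F : Eu ι → Eu ι, ContDiff ℝ ∞ F → MapsTo F M M → Flat M δ₁ F →
      (∀ x ∈ M, ‖F x - x‖ ≤ r₁) → ∀ c : ℝ, 0 < c →
      (∀ x ∈ M, ∀ y ∈ M, c * ‖x - y‖ ≤ ‖F x - F y‖) → ∀ r : ℝ, 0 < r → r ≤ r₁ →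
      ∀ x ∈ M, ∀ y ∈ M, ‖x - y‖ ≤ b * r → c / 8 * ‖x - y‖ ≤ ‖psi ρ K F r x - psi ρ K F r y‖

/-- `F` is almost a similarity on the ball of radius `R` about `x`, with factor `√l` -/
def FlatAt {ι : Type} [Fintype ι] (M : Set (Eu ι)) (δ l R : ℝ) (F : Eu ι → Eu ι) (x : Eu ι) : Prop :=
  0 < l ∧ ∀ y ∈ M, ∀ z ∈ M, ‖y - x‖ ≤ R → ‖z - x‖ ≤ R →
    |‖F y - F z‖ ^ 2 - l * ‖y - z‖ ^ 2| ≤ δ * l * R ^ 2

/-- the derivative of the mollification of `F ∘ ρ` at scale `r` -/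
def Dmol {ι : Type} [Fintype ι] (ρ : Eu ι → Eu ι) (K : Eu ι → ℝ) (F : Eu ι → Eu ι) (r : ℝ)
    (z : Eu ι) : Eu ι →L[ℝ] Eu ι :=
  fderiv ℝ (fun x => mol K (fun y => F (ρ y)) (r, x)) z

/-- CLA: first part of CLOSE, the inner product with `f = F p - F x` (see the proof of CLOSE;
`w = y - x`; `R₁` is any number `≥ L (b + 1)`; `t₀` and `A` may depend on `R₁`) -/
def P_CLA : Prop := P_GEO → P_MOL → ∀ (ι : Type) [Fintype ι] (M : Set (Eu ι)) (ρ : Eu ι → Eu ι)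
  (K : Eu ι → ℝ), Retr M ρ → Ker K → ∀ b : ℝ, 1 ≤ b → ∃ R₀ : ℝ, 1 ≤ R₀ ∧ ∀ R₁ : ℝ, R₀ ≤ R₁ →
    ∃ t₀ A : ℝ, 0 < t₀ ∧ 1 ≤ A ∧ ∀ F : Eu ι → Eu ι, ContDiff ℝ ∞ F → MapsTo F M M →
      ∀ r : ℝ, 0 < r → r ≤ t₀ → ∀ x ∈ M, ∀ y ∈ M, 0 < ‖y - x‖ → ‖y - x‖ ≤ b * r →
      ∀ l δ : ℝ, 0 ≤ δ → FlatAt M δ l (R₁ * r) F x → ∀ s : ℝ, 0 ≤ s → s ≤ 1 →
      ∀ p : Eu ι, p = ρ (x + (r / ‖y - x‖) • (y - x)) →
        p ∈ M ∧ 7 / 8 * r ≤ ‖p - x‖ ∧ ‖p - x‖ ≤ 9 / 8 * r ∧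
        |inner ℝ (Dmol ρ K F r (x + s • (y - x)) (y - x)) (F p - F x) - l * r * ‖y - x‖| ≤
          A * (r + δ) * l * r * ‖y - x‖

/-- CLB: second part of CLOSE, norm estimates (see the proof of CLOSE) -/
def P_CLB : Prop := P_GEO → P_MOL → ∀ (ι : Type) [Fintype ι] (M : Set (Eu ι)) (ρ : Eu ι → Eu ι)
  (K : Eu ι → ℝ), Retr M ρ → Ker K → ∀ b : ℝ, 1 ≤ b → ∃ R₀ : ℝ, 1 ≤ R₀ ∧ ∀ R₁ : ℝ, R₀ ≤ R₁ →
    ∃ t₀ A : ℝ, 0 < t₀ ∧ 1 ≤ A ∧ ∀ F : Eu ι → Eu ι, ContDiff ℝ ∞ F → MapsTo F M M →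
      ∀ t : ℝ, 0 < t → t ≤ t₀ → (∀ x ∈ M, ‖F x - x‖ ≤ t) →
      ∀ r : ℝ, 0 < r → r ≤ t → ∀ x ∈ M, ∀ y ∈ M, ‖y - x‖ ≤ b * r →
      ∀ l δ : ℝ, 0 ≤ δ → δ ≤ 1 → FlatAt M δ l (R₁ * r) F x → ∀ s : ℝ, 0 ≤ s → s ≤ 1 →
        ‖fderiv ℝ ρ (mol K (fun y => F (ρ y)) (r, x + s • (y - x)))
            (Dmol ρ K F r (x + s • (y - x)) (y - x)) -
          Dmol ρ K F r (x + s • (y - x)) (y - x)‖ ≤ A * √l * ‖y - x‖ * t

/-- CLC: last part of CLOSE -/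
def P_CLC : Prop := P_CLA → P_CLB → P_CLOSE

/-- FAR: distant points.
Proof.  `R = ‖x - y‖ ≥ b r`, `l = l(x, 2R)`: for `‖v‖ ≤ 1`, `q = ρ(y + r v)`: `‖q - y‖ ≤ L r`,
`‖F q - F y‖² ≤ l (L² r² + 4 δ R²)`, so `‖Φ y - F y‖ ≤ √l R (L / b + 2 √δ)`, the same at `x`, and
`‖ψ_r y - F y‖ = ‖ρ(Φ y) - ρ(F y)‖ ≤ L ‖Φ y - F y‖`, while `‖F x - F y‖² ≥ l R² (1 - 4 δ)`; and
`c R ≤ ‖F x - F y‖ ≤ √l R √(1 + 4 δ)`. -/
def P_FAR : Prop := P_GEO → P_MOL → ∀ (ι : Type) [Fintype ι] (M : Set (Eu ι)) (ρ : Eu ι → Eu ι)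
  (K : Eu ι → ℝ), Retr M ρ → Ker K → ∃ b r₁ δ₁ : ℝ, 1 ≤ b ∧ 0 < r₁ ∧ 0 < δ₁ ∧
    ∀ F : Eu ι → Eu ι, ContDiff ℝ ∞ F → MapsTo F M M → Flat M δ₁ F →
      (∀ x ∈ M, ‖F x - x‖ ≤ r₁) → ∀ c : ℝ, 0 < c →
      (∀ x ∈ M, ∀ y ∈ M, c * ‖x - y‖ ≤ ‖F x - F y‖) → ∀ r : ℝ, 0 < r → r ≤ r₁ →
      ∀ x ∈ M, ∀ y ∈ M, b * r ≤ ‖x - y‖ → c / 8 * ‖x - y‖ ≤ ‖psi ρ K F r x - psi ρ K F r y‖

/-- UP: at a fixed scale `r₀` the mollification is `C¹`-close to the identity if `F` is `C⁰`-close.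
Proof.  Let `e = F ∘ ρ - ρ`, `‖e‖ ≤ ε` near `M`; `Φ = mol K ρ + mol K e`.  By `P_MOL` (with `c = 0`) the
derivative of `mol K e (r₀, ·)` near `M` has norm `≤ (C / r₀) ε`, and
`(mol K ρ (r₀, x) - ρ x) - (mol K ρ (r₀, y) - ρ y)` is `≤ L r₀ ‖x - y‖` for `‖x - y‖ ≤ η / 4`.  So
`‖(Φ x - x) - (Φ y - y)‖ ≤ C (r₀ + ε / r₀) ‖x - y‖`, `‖Φ x - x‖ ≤ L r₀ + ε`, and the last inequality of
`P_GEO` with `a = Φ x`, `b = Φ y`.  For `‖x - y‖ ≥ η / 4` use the bound of `‖ψ x - x‖`. -/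
def P_UP : Prop := P_GEO → P_MOL → ∀ (ι : Type) [Fintype ι] (M : Set (Eu ι)) (ρ : Eu ι → Eu ι)
  (K : Eu ι → ℝ), Retr M ρ → Ker K → ∀ κ : ℝ, 0 < κ → ∃ r₁ : ℝ, 0 < r₁ ∧ ∀ r₀ : ℝ, 0 < r₀ → r₀ ≤ r₁ →
    ∃ ε : ℝ, 0 < ε ∧ ∀ F : Eu ι → Eu ι, ContDiff ℝ ∞ F → MapsTo F M M →
      (∀ x ∈ M, ‖F x - x‖ ≤ ε) → (∀ x ∈ M, ‖psi ρ K F r₀ x - x‖ ≤ κ) ∧
      ∀ x ∈ M, ∀ y ∈ M, ‖(psi ρ K F r₀ x - x) - (psi ρ K F r₀ y - y)‖ ≤ κ * ‖x - y‖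

/-- LOC: the local theorem (assembled by helper44 from the pieces above) -/
def P_LOC : Prop := ∀ (ι : Type) [Fintype ι] (M : Set (Eu ι)) (ρ : Eu ι → Eu ι), Retr M ρ →
  ∃ ε δ : ℝ, 0 < ε ∧ 0 < δ ∧ ∀ F : Eu ι → Eu ι, IsDiffeo M F → Flat M δ F →
    (∀ x ∈ M, ‖F x - x‖ ≤ ε) → Isotopic M (fun x => x) F

/-- CPT: compactness.
Proof.  Let `D` be the diameter of `M` (if `D = 0` take `g = id`), `r = D`, `x₀ ∈ M`, `l = l(x₀, r)`.  With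
`‖y - z‖ = D`: `D² ≥ ‖F y - F z‖² ≥ l (D² - δ r²)`; with `F y' = y`, `F z' = z`:
`D² = ‖F y' - F z'‖² ≤ l (D² + δ r²)`.  So `l → 1` and
`|‖F y - F z‖² - ‖y - z‖²| ≤ C δ` on `M`.  If the statement is false for `ε` there are counterexamples
`F_k` for `δ = 1 / (k + 1)`; let `g` be the pointwise limit along `Filter.hyperfilter ℕ`; it preserves
distances; with a finite `ε'`-net of `M`, `‖F_k - g‖ ≤ ε` on `M` for almost all `k`. -/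
def P_CPT : Prop := ∀ (ι : Type) [Fintype ι] (M : Set (Eu ι)), IsCompact M → ∀ ε : ℝ, 0 < ε →
  ∃ δ : ℝ, 0 < δ ∧ ∀ F : Eu ι → Eu ι, IsDiffeo M F → Flat M δ F →
    ∃ g : Eu ι → Eu ι, MapsTo g M M ∧ (∀ x ∈ M, ∀ y ∈ M, ‖g x - g y‖ = ‖x - y‖) ∧
      ∀ x ∈ M, ‖F x - g x‖ ≤ ε

/-! ### the complex projective plane -/

/-- the space of complex `3 × 3` matrices -/
abbrev Mat3 := Fin 3 → Fin 3 → ℂ

/-- `CP²`: the Hermitian projections of rank one (as in the frozen statement of the problem) -/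
def CP2 : Set Mat3 := {P | (∀ i j, P j i = star (P i j)) ∧ (∀ i j, ∑ k, P i k * P k j = P i j) ∧
  ∑ i, P i i = 1}

/-- the complex conjugation -/
def bar (P : Mat3) : Mat3 := fun i j => star (P i j)

/-- `U P U*` -/
def conjBy (U : Matrix (Fin 3) (Fin 3) ℂ) (P : Mat3) : Mat3 :=
  fun i j => (U * Matrix.of P * U.conjTranspose) i j

/-- RET: `CP²` has a smooth retraction.
Proof.  For `A` near `CP²` let `H = (A + A*) / 2`, `Y = (2 H - 1)²`, near `1`; `ρ A = (1 + (2 H - 1) S(Y)) / 2`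
with the smooth inverse square root `S` of RET1. -/
def P_RET : Prop := ∃ ρ : Mat3 → Mat3, ContDiff ℝ ∞ ρ ∧
  (∃ η : ℝ, 0 < η ∧ ∀ P ∈ CP2, ∀ A, ‖A - P‖ ≤ η → ρ A ∈ CP2) ∧ ∀ P ∈ CP2, ρ P = P

/-- the product of matrices -/
def mm (A B : Mat3) : Mat3 := fun i j => ∑ k, A i k * B k j

/-- the identity matrix -/
def one3 : Mat3 := fun i j => if i = j then 1 else 0

/-- the adjoint matrix -/
def star3 (A : Mat3) : Mat3 := fun i j => star (A j i)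

/-- RET1: a smooth inverse square root near `1`.
Proof.  The map `X ↦ X²` has the derivative `2` at `X = 1` (in the normed algebra of matrices, e.g.
`Matrix.linftyOpNormedRing`, or for the sup norm); let `T` be its smooth local inverse
(`ContDiffAt.toOpenPartialHomeomorph`, `ContDiffAt.to_localInverse`), `S₀ Y = (T Y)⁻¹`
(`contDiffAt_ringInverse`), cut off by a bump function.  Uniqueness: there is a neighbourhood `W` of `1`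
such that `X ∈ W`, `X² = Y` give `X = T Y`.  If `H` commutes with `Y` then for small real `u`,
`(1 + u H) (T Y) (1 + u H)⁻¹` is in `W` with the same square, so it equals `T Y`.  In the same way
`(T Y)* = T Y` if `Y* = Y`. -/
def P_RET1 : Prop := ∃ S : Mat3 → Mat3, ContDiff ℝ ∞ S ∧ S one3 = one3 ∧ ∃ τ : ℝ, 0 < τ ∧
  ∀ Y : Mat3, ‖Y - one3‖ ≤ τ → mm (mm (S Y) (S Y)) Y = one3 ∧
    (∀ H : Mat3, mm H Y = mm Y H → mm H (S Y) = mm (S Y) H) ∧ (star3 Y = Y → star3 (S Y) = S Y)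

/-- RET2: the retraction.
Proof.  See RET.  `e = ρ A` is Hermitian and idempotent; its trace is near `1` (`|P_ij| ≤ 1` on `CP²` gives
uniform continuity) and it is the rank of `e`, so it is `1`. -/
def P_RET2 : Prop := P_RET1 → P_RET

/-- CON: `CP²` is compact and connected (the image of the unit sphere under `v ↦ v v*`,
`isConnected_sphere`). -/
def P_CON : Prop := IsCompact CP2 ∧ IsPreconnected CP2 ∧ CP2.Nonempty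

/-- WIG: Wigner's theorem for `CP²`.
Proof.  `∑ |P_ij - Q_ij|² = 2 - 2 tr (P Q)`, so `tr (g P g Q) = tr (P Q)`.  `E_i` = coordinate
projections: `g E_i = u_i u_i*` with `u_i` orthonormal; `U₁ = (u_0, u_1, u_2)` and `h = U₁* g U₁` fixes the
`E_i`; `J = (1/3) 1 1*`, `h J = w w*` with `|w_i|² = 1/3`; with `D = diag (√3 w_i)`, `h₂ = D* h D` fixes the
`E_i` and `J`.  Then `h₂` preserves the diagonal entries (`tr (P E_i)`), it fixes the projections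
`P⁺_ij` to `e_i + e_j` (`i < j`; compare with `J`), so it preserves `Re P_ij`; it maps the projection `P^i` to
`e_0 + i e_1` to itself or its conjugate; if to its conjugate, compose with `bar`.  So `Im P_01` is
preserved; for `Q = h₃ P`: `P_01 P_12 = P_11 P_02`, `P_01 Q_12 = P_11 Q_02` with `P_12 - Q_12`,
`P_02 - Q_02` purely imaginary, so `P = Q` if `Im P_01 ≠ 0` (then `P_11 ≠ 0`).  These `P` are dense and
`h₃` is continuous. -/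
def P_WIG : Prop := ∀ g : Mat3 → Mat3, MapsTo g CP2 CP2 →
  (∀ P ∈ CP2, ∀ Q ∈ CP2, ∑ i, ∑ j, ‖g P i j - g Q i j‖ ^ 2 = ∑ i, ∑ j, ‖P i j - Q i j‖ ^ 2) →
  ∃ U : Matrix (Fin 3) (Fin 3) ℂ, U * U.conjTranspose = 1 ∧ U.conjTranspose * U = 1 ∧
    ((∀ P ∈ CP2, g P = conjBy U P) ∨ ∀ P ∈ CP2, g P = conjBy U (bar P))

/-- the coordinate projections -/
def Ecoord (k : Fin 3) : Mat3 := fun i j => if i = k ∧ j = k then 1 else 0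

/-- the projection to `(1, 1, 1)` -/
def Jproj : Mat3 := fun _ _ => 1 / 3

/-- WIG2: second half of WIG -/
def P_WIG2 : Prop := ∀ h : Mat3 → Mat3, MapsTo h CP2 CP2 →
  (∀ P ∈ CP2, ∀ Q ∈ CP2, ∑ i, ∑ j, ‖h P i j - h Q i j‖ ^ 2 = ∑ i, ∑ j, ‖P i j - Q i j‖ ^ 2) →
  (∀ k, h (Ecoord k) = Ecoord k) → h Jproj = Jproj →
  (∀ P ∈ CP2, h P = P) ∨ ∀ P ∈ CP2, h P = bar P

/-- WIG1: first half of WIG -/
def P_WIG1 : Prop := P_WIG2 → P_WIG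

/-- UNI: conjugation with a unitary matrix is smoothly isotopic to the identity.
Proof.  `U` may be replaced by `c U`, `|c| = 1`, so assume that `-1` is not an eigenvalue of `U`; then
`S_s = (1 - s) 1 + s U` is invertible for `0 ≤ s ≤ 1` (eigenvalues of `U` have absolute value one).  `S`
invertible acts on `CP²` by `P ↦ S P S* / tr (S P S*)`, inverse: the same for `S⁻¹`.
`K (t, P) = S P S* · φ (tr (S P S*))`, `S = S_{σ(t)}`, `σ = Real.smoothTransition`, `φ` smooth on `ℝ` with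
`φ x = 1 / x` for `x ≥ c₀`, `c₀` a lower bound of the traces (compactness). -/
def P_UNI : Prop := P_CON → ∀ U : Matrix (Fin 3) (Fin 3) ℂ, U * U.conjTranspose = 1 →
  U.conjTranspose * U = 1 → Isotopic CP2 (fun P => P) (conjBy U)

/-- on each ball `F` is almost a similarity, for the Frobenius norm on `CP²` -/
def FlatC (δ : ℝ) (F : Mat3 → Mat3) : Prop :=
  ∀ P ∈ CP2, ∀ r : ℝ, 0 < r → ∃ l : ℝ, 0 < l ∧ ∀ Q ∈ CP2, ∀ S ∈ CP2,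
    ∑ i, ∑ j, ‖Q i j - P i j‖ ^ 2 ≤ r ^ 2 → ∑ i, ∑ j, ‖S i j - P i j‖ ^ 2 ≤ r ^ 2 →
    |∑ i, ∑ j, ‖F Q i j - F S i j‖ ^ 2 - l * ∑ i, ∑ j, ‖Q i j - S i j‖ ^ 2| ≤ δ * l * r ^ 2

/-- FIN: the final statement (assembled by helper44) -/
def P_FIN : Prop := ∃ δ : ℝ, 0 < δ ∧ ∀ F : Mat3 → Mat3, IsDiffeo CP2 F → FlatC δ F →
  Isotopic CP2 (fun P => P) F ∨ Isotopic CP2 bar F

end Pool.Agent.W2helper44.CP
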