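import Pool.Agent.W2helper44.CP.Loc
import Pool.Agent.W2helper44.CP.Fin
import Pool.Agent.W2helper53.CP.GEO
import Pool.Agent.W2helper53.CP.INV1
import Pool.Agent.W2helper92.CP.INV2
import Pool.Agent.W2helper24.CP.NEAR
import Pool.Agent.W2helper24.CP.UP
import Pool.Agent.W2helper19.CP.Conn
import Pool.Agent.W2helper19.CP.KER
import Pool.Agent.W2helper19.CP.WIG1
import Pool.Agent.W2helper37.CP.FAR
import Pool.Agent.W2helper37.CP.MOL
import Pool.Agent.W2helper88.CP.CPT
import Pool.Agent.W2helper15.CP.RET1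
import Pool.Agent.W2helper15.CP.RET2
import Pool.Agent.W2helper71.CP.WIG2
import Pool.Agent.W2helper85.CP.EQV
import Pool.Agent.W4helper65.CP.UNI

/-! # Project CP: assembly -/

set_option autoImplicit false

open Set Filter Topology MeasureTheory
open scoped ContDiff

noncomputable section

namespace Pool.Agent.W2helper44.CP

theorem loc_of_close (h : P_CLOSE) : P_LOC :=
  loc p_EQV p_GEO (p_INV2 p_INV1) p_NEAR p_KER p_MOL h p_FAR p_UP

theorem fin_of_close (h : P_CLOSE) : P_FIN :=
  Final.fin p_EQV (loc_of_close h) p_CPT (p_RET2 p_RET1) p_CON (p_WIG1 p_WIG2)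
    Pool.Agent.W4helper65.CP.p_UNI

end Pool.Agent.W2helper44.CP
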